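import Pool.Agent.Q43.SL.Upper
import Pool.Agent.Q43.SL.LowerF
import Pool.Agent.Q43.SL.LowerI

/-! MP_f0da7f_al, Q1: the number of maximal ideals and the number of maximal filters of the
lattice of the subspaces of an infinite-dimensional vector space. -/

open Module Cardinal Q43.SL

universe u

namespace Pool.Agent.Results.MP_f0da7f_al.MaximalIdealsAndFilters

/-- Let `V` be a vector space of infinite dimension `κ` over an arbitrary field `F`. The lattice
of the subspaces of `V` has exactly `2 ^ (|F| ^ κ)` maximal ideals and exactly `|F| ^ (2 ^ κ)`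
maximal filters. -/
theorem result {F V : Type u} [Field F] [AddCommGroup V] [Module F V] (κ : Cardinal.{u})
    (hκ : ℵ₀ ≤ κ) (hV : Module.rank F V = κ) :
    #{I : Set (Submodule F V) // Maximal IsIdeal I} = 2 ^ (#F ^ κ) ∧
    #{M : Set (Submodule F V) // Maximal IsFilter M} = #F ^ (2 ^ κ : Cardinal.{u}) := by
  classical
  have b : Basis (Basis.ofVectorSpaceIndex F V) F V := Basis.ofVectorSpace F V
  set ι := (Basis.ofVectorSpaceIndex F V : Set V) with hι
  have hcι : #ι = κ := by rw [← hV]; exact b.mk_eq_rank''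
  have hinf : Infinite ι := Cardinal.infinite_iff.2 (by rw [hcι]; exact hκ)
  have hle : ℵ₀ ≤ #ι := by rw [hcι]; exact hκ
  have hF2 : (2 : Cardinal.{u}) ≤ #F := by
    rw [Cardinal.two_le_iff]
    exact ⟨0, 1, zero_ne_one⟩
  obtain ⟨e1⟩ : Nonempty (ι ≃ Finset ι × Finset (Finset ι)) := by
    rw [← Cardinal.eq, Cardinal.mk_prod, Cardinal.lift_id, Cardinal.lift_id,
      Cardinal.mk_finset_of_infinite, Cardinal.mk_finset_of_infinite,
      Cardinal.mk_finset_of_infinite, Cardinal.mul_eq_self hle]
  obtain ⟨e2⟩ : Nonempty (ι ≃ Finset ι × List ℕ) := by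
    rw [← Cardinal.eq, Cardinal.mk_prod, Cardinal.mk_finset_of_infinite, Cardinal.mk_list_eq_mk,
      Cardinal.mk_nat, Cardinal.lift_aleph0, Cardinal.lift_id', Cardinal.mul_aleph0_eq hle]
  have hsub : #(Submodule F V) ≤ #F ^ #ι := mk_submodule_le b hle
  have hI1 := power_le_mk_maximal_ideal (b.reindex e2)
  have hM1 := power_le_mk_maximal_filter (b.reindex e1)
  rw [hcι] at hsub hI1 hM1
  constructor
  · refine le_antisymm ?_ hI1
    calc #{I : Set (Submodule F V) // Maximal IsIdeal I} ≤ #(Set (Submodule F V)) :=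
          Cardinal.mk_subtype_le _
      _ = 2 ^ #(Submodule F V) := Cardinal.mk_set
      _ ≤ 2 ^ (#F ^ κ) := Cardinal.power_le_power_left two_ne_zero hsub
  · refine le_antisymm ?_ hM1
    have h1 := mk_maximal_filter_le b hle
    rw [hcι] at h1
    refine h1.trans ?_
    calc #(Submodule F V) ^ (2 ^ κ : Cardinal.{u}) ≤ (#F ^ κ) ^ (2 ^ κ : Cardinal.{u}) :=
          Cardinal.power_le_power_right hsub
      _ = #F ^ (2 ^ κ : Cardinal.{u}) := by
          rw [← Cardinal.power_mul,
            Cardinal.mul_eq_right (hκ.trans (cantor κ).le) (cantor κ).le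
              (Cardinal.aleph0_pos.trans_le hκ).ne']

end Pool.Agent.Results.MP_f0da7f_al.MaximalIdealsAndFilters
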